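import Pool.Agent.H88.SymDP.Lattice2

open Polynomial

namespace Pool.Agent.H48.SymDP

/-- The form with real coordinates `s`: `β + 2 a y - 6 b z`. -/
noncomputable def rf {k : Type*} [Field k] [Algebra ℚ k] (θ : k) (s : Fin 3 → ℚ[X]) :
    Fin 3 → k[X] :=
  ![(s 0).map (algebraMap ℚ k),
    (s 1).map (algebraMap ℚ k) + C θ * (s 2).map (algebraMap ℚ k),
    (s 1).map (algebraMap ℚ k) - C θ * (s 2).map (algebraMap ℚ k)]

section count

variable {k : Type*} [Field k]

lemma exists_monic_dvd_iff (Q : k[X]) (hQ : Q ≠ 0) :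
    ∃ Q' : k[X], Q'.Monic ∧ Q'.natDegree = Q.natDegree ∧ (∀ a, Q' ∣ a ↔ Q ∣ a) ∧
      (∀ a, Q' ^ 2 ∣ a ↔ Q ^ 2 ∣ a) := by
  have hl : Q.leadingCoeff ≠ 0 := leadingCoeff_ne_zero.2 hQ
  have hu : IsUnit (C (Q.leadingCoeff⁻¹) : k[X]) := isUnit_C.2 (isUnit_iff_ne_zero.2 (inv_ne_zero hl))
  refine ⟨Q * C (Q.leadingCoeff⁻¹), monic_mul_leadingCoeff_inv hQ, ?_, ?_, ?_⟩
  · rw [natDegree_mul_C (inv_ne_zero hl)]
  · intro a; exact hu.mul_right_dvd
  · intro a
    rw [mul_pow]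
    exact (hu.pow 2).mul_right_dvd

/-- `F0` as a linear map. -/
noncomputable def lin0 (P lam σ : k[X]) (θ : k) (q : ℕ) :
    (degreeLT k (q + 2) × degreeLT k q × degreeLT k q) →ₗ[k] k[X] where
  toFun v := F0 P lam (rfR (C θ) ![(v.1 : k[X]), v.2.1, v.2.2]) σ
  map_add' v w := by simp [F0, rfR]; ring
  map_smul' c v := by simp [F0, rfR, smul_eq_C_mul]; ring

/-- `F1` as a linear map. -/
noncomputable def lin1 (P lam σ : k[X]) (θ : k) (q : ℕ) :
    (degreeLT k (q + 2) × degreeLT k q × degreeLT k q) →ₗ[k] k[X] where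
  toFun v := F1 P lam (rfR (C θ) ![(v.1 : k[X]), v.2.1, v.2.2]) σ
  map_add' v w := by simp [F1, rfR]; ring
  map_smul' c v := by simp [F1, rfR, smul_eq_C_mul]; ring

lemma fin_degreeLT (n : ℕ) : Module.Finite k (degreeLT k n) :=
  Module.Finite.equiv (degreeLTEquiv k n).symm

lemma finrank_degLT (n : ℕ) : Module.finrank k (degreeLT k n) = n := by
  rw [(degreeLTEquiv k n).finrank_eq, Module.finrank_fin_fun]

/-- The dimension count. -/
lemma exists_nonzero (P lam σ Q : k[X]) (θ : k) (hQ : Q ≠ 0) (q : ℕ) (hq : Q.natDegree = q)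
    (ℓ : (degreeLT k (q + 2) × degreeLT k q × degreeLT k q) →ₗ[k] k) :
    ∃ v : degreeLT k (q + 2) × degreeLT k q × degreeLT k q, v ≠ 0 ∧ ℓ v = 0 ∧
      InT P lam Q σ (rfR (C θ) ![(v.1 : k[X]), v.2.1, v.2.2]) := by
  obtain ⟨Q', hm, hd, h1, h2⟩ := exists_monic_dvd_iff Q hQ
  have : ∀ n, Module.Finite k (degreeLT k n) := fun n => fin_degreeLT n
  let Φ₀ : (degreeLT k (q + 2) × degreeLT k q × degreeLT k q) →ₗ[k] degreeLT k (2 * q) :=
    LinearMap.codRestrict (degreeLT k (2 * q)) ((modByMonicHom (Q' ^ 2)).comp (lin0 P lam σ θ q))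
      (fun v => by
        rw [mem_degreeLT]
        refine lt_of_lt_of_eq (degree_modByMonic_lt _ (hm.pow 2)) ?_
        rw [degree_eq_natDegree (hm.pow 2).ne_zero, natDegree_pow, hd, hq])
  let Φ₁ : (degreeLT k (q + 2) × degreeLT k q × degreeLT k q) →ₗ[k] degreeLT k q :=
    LinearMap.codRestrict (degreeLT k q) ((modByMonicHom Q').comp (lin1 P lam σ θ q))
      (fun v => by
        rw [mem_degreeLT]
        refine lt_of_lt_of_eq (degree_modByMonic_lt _ hm) ?_
        rw [degree_eq_natDegree hm.ne_zero, hd, hq])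
  let Φ := LinearMap.prod ℓ (LinearMap.prod Φ₀ Φ₁)
  have hker : LinearMap.ker Φ ≠ ⊥ := by
    apply LinearMap.ker_ne_bot_of_finrank_lt
    simp only [Module.finrank_prod, finrank_degLT, Module.finrank_self]
    omega
  obtain ⟨v, hv, hv0⟩ := (Submodule.ne_bot_iff _).1 hker
  rw [LinearMap.mem_ker] at hv
  have e0 : ℓ v = 0 := congrArg Prod.fst hv
  have e1 : Φ₀ v = 0 := congrArg (fun z => z.2.1) hv
  have e2 : Φ₁ v = 0 := congrArg (fun z => z.2.2) hv
  refine ⟨v, hv0, e0, ?_, ?_⟩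
  · rw [← h2]
    have := congrArg Subtype.val e1
    exact (modByMonic_eq_zero_iff_dvd (hm.pow 2)).1 this
  · rw [← h1]
    have := congrArg Subtype.val e2
    exact (modByMonic_eq_zero_iff_dvd hm).1 this

end count

section descent

variable {k : Type*} [Field k] [Algebra ℚ k] [IsGalois ℚ k]

lemma descent (S : Submodule k (Fin 3 → k[X]))
    (hG : ∀ (g : k ≃ₐ[ℚ] k) (r : Fin 3 → k[X]), r ∈ S →
      (fun i => (r i).map (g : k →+* k)) ∈ S)
    (hne : ∃ r ∈ S, r ≠ 0) :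
    ∃ s : Fin 3 → ℚ[X], s ≠ 0 ∧ (fun i => (s i).map (algebraMap ℚ k)) ∈ S := by
  classical
  let N : (Fin 3 → k[X]) → ℕ := fun r => ∑ i, (r i).support.card
  have hex : ∃ n, ∃ r ∈ S, r ≠ 0 ∧ N r = n := by
    obtain ⟨r, hr, h0⟩ := hne
    exact ⟨N r, r, hr, h0, rfl⟩
  obtain ⟨r, hrS, hr0, hrN⟩ := Nat.find_spec hex
  have hmin : ∀ r' ∈ S, r' ≠ 0 → N r ≤ N r' := fun r' h1 h2 => by
    rw [hrN]; exact Nat.find_min' hex ⟨r', h1, h2, rfl⟩
  obtain ⟨i0, hi0⟩ : ∃ i, r i ≠ 0 := by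
    by_contra hcon
    push Not at hcon
    exact hr0 (funext hcon)
  obtain ⟨n0, hn0⟩ : ∃ n, (r i0).coeff n ≠ 0 := by
    by_contra hcon
    push Not at hcon
    exact hi0 (Polynomial.ext (by simpa using hcon))
  set c := (r i0).coeff n0 with hc
  let r' : Fin 3 → k[X] := c⁻¹ • r
  have hr'S : r' ∈ S := S.smul_mem _ hrS
  have hr'i : ∀ i n, (r' i).coeff n = c⁻¹ * (r i).coeff n := fun i n => by
    simp [r']
  have hsup : ∀ i, (r' i).support = (r i).support := fun i => by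
    ext n
    rw [mem_support_iff, mem_support_iff, hr'i]
    simp [hn0]
  have hone : (r' i0).coeff n0 = 1 := by
    rw [hr'i]; exact inv_mul_cancel₀ hn0
  have hfix : ∀ (g : k ≃ₐ[ℚ] k) i n, g ((r' i).coeff n) = (r' i).coeff n := by
    intro g i n
    by_contra hcon
    let d : Fin 3 → k[X] := (fun i => (r' i).map (g : k →+* k)) - r'
    have hdS : d ∈ S := S.sub_mem (hG g r' hr'S) hr'S
    have hdc : ∀ i n, (d i).coeff n = g ((r' i).coeff n) - (r' i).coeff n := fun i n => by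
      simp [d]
    have hd0 : d ≠ 0 := by
      intro h0
      have := hdc i n
      rw [h0] at this
      simp only [Pi.zero_apply, coeff_zero] at this
      exact hcon (sub_eq_zero.1 this.symm)
    have hle : ∀ i, (d i).support ⊆ (r i).support := fun i n hn => by
      rw [mem_support_iff, hdc] at hn
      rw [← hsup, mem_support_iff]
      intro h0
      rw [h0] at hn
      simp at hn
    have hlt : N d < N r := by
      refine Finset.sum_lt_sum (fun i _ => Finset.card_le_card (hle i)) ⟨i0, Finset.mem_univ _, ?_⟩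
      refine Finset.card_lt_card ⟨hle i0, fun hsub => ?_⟩
      have : n0 ∈ (d i0).support := hsub (mem_support_iff.2 hn0)
      rw [mem_support_iff, hdc, hone] at this
      simp at this
    exact absurd (hmin d hdS hd0) (not_le.2 hlt)
  have hlift : ∀ i, ∃ p : ℚ[X], p.map (algebraMap ℚ k) = r' i := fun i => by
    rw [← mem_lifts, lifts_iff_coeff_lifts]
    intro n
    rw [InfiniteGalois.mem_range_algebraMap_iff_fixed]
    exact fun g => hfix g i n
  choose s hs using hlift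
  refine ⟨s, ?_, ?_⟩
  · intro h0
    have := hs i0
    rw [h0] at this
    simp only [Pi.zero_apply, Polynomial.map_zero] at this
    rw [← this] at hone
    simp at hone
  · have : (fun i => (s i).map (algebraMap ℚ k)) = r' := funext hs
    rw [this]; exact hr'S

end descent

section final

variable {k : Type*} [Field k]

/-- The space of sections in real coordinates. -/
def secSub (P lam Q σ : k[X]) (θ : k) (q : ℕ) : Submodule k (Fin 3 → k[X]) where
  carrier := {r | InT P lam Q σ (rfR (C θ) r) ∧ (r 0).degree < ((q + 2 : ℕ) : WithBot ℕ) ∧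
    (r 1).degree < (q : WithBot ℕ) ∧ (r 2).degree < (q : WithBot ℕ)}
  add_mem' := by
    rintro a b ⟨ha, ha0, ha1, ha2⟩ ⟨hb, hb0, hb1, hb2⟩
    refine ⟨?_, (degree_add_le _ _).trans_lt (max_lt ha0 hb0),
      (degree_add_le _ _).trans_lt (max_lt ha1 hb1), (degree_add_le _ _).trans_lt (max_lt ha2 hb2)⟩
    have e : rfR (C θ) (a + b) = rfR (C θ) a + rfR (C θ) b := by
      ext j : 1
      fin_cases j <;> simp [rfR] <;> ring
    rw [e]
    exact ha.add hb
  zero_mem' := by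
    refine ⟨⟨⟨0, ?_⟩, ⟨0, ?_⟩⟩, ?_, ?_, ?_⟩
    · simp [F0, rfR]
    · simp [F1, rfR]
    · simp only [Pi.zero_apply, degree_zero]; exact WithBot.bot_lt_coe _
    · simp only [Pi.zero_apply, degree_zero]; exact WithBot.bot_lt_coe _
    · simp only [Pi.zero_apply, degree_zero]; exact WithBot.bot_lt_coe _
  smul_mem' := by
    rintro c a ⟨ha, ha0, ha1, ha2⟩
    refine ⟨?_, (degree_smul_le _ _).trans_lt ha0, (degree_smul_le _ _).trans_lt ha1,
      (degree_smul_le _ _).trans_lt ha2⟩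
    have e : rfR (C θ) (c • a) = C c • rfR (C θ) a := by
      ext j : 1
      fin_cases j <;> simp [rfR, smul_eq_C_mul] <;> ring
    rw [e]
    exact ha.smul (C c)

/-- The inclusion of the triples of bounded degree. -/
noncomputable def emb (k : Type*) [Field k] (q : ℕ) :
    (degreeLT k (q + 2) × degreeLT k q × degreeLT k q) →ₗ[k] (Fin 3 → k[X]) where
  toFun v := ![(v.1 : k[X]), v.2.1, v.2.2]
  map_add' v w := by ext j : 1; fin_cases j <;> simp
  map_smul' c v := by ext j : 1; fin_cases j <;> simp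

lemma secSub_nonzero (P lam σ Q : k[X]) (θ : k) (hQ : Q ≠ 0)
    (ℓ : (Fin 3 → k[X]) →ₗ[k] k) :
    ∃ r ∈ secSub P lam Q σ θ Q.natDegree ⊓ LinearMap.ker ℓ, r ≠ 0 := by
  obtain ⟨v, hv0, hv1, hv2⟩ := exists_nonzero P lam σ Q θ hQ Q.natDegree rfl
    (ℓ.comp (emb k Q.natDegree))
  refine ⟨emb k Q.natDegree v, ⟨⟨hv2, ?_, ?_, ?_⟩, hv1⟩, ?_⟩
  · exact mem_degreeLT.1 v.1.2
  · exact mem_degreeLT.1 v.2.1.2
  · exact mem_degreeLT.1 v.2.2.2
  · intro h0
    apply hv0
    have h1 : (v.1 : k[X]) = 0 := congrFun h0 0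
    have h2 : (v.2.1 : k[X]) = 0 := congrFun h0 1
    have h3 : (v.2.2 : k[X]) = 0 := congrFun h0 2
    exact Prod.ext (Subtype.ext h1) (Prod.ext (Subtype.ext h2) (Subtype.ext h3))

lemma secSub_stable [Algebra ℚ k] (θ : k) (hθ : θ ^ 2 = -3)
    (P Q : ℚ[X]) (lam : ℚ) (σ : k[X]) (hPQ : IsCoprime P Q)
    (hfix : ∀ g : k ≃ₐ[ℚ] k, g θ = θ →
      Q.map (algebraMap ℚ _) ∣ σ.map (g : k →+* k) - σ)
    (hflip : ∀ g : k ≃ₐ[ℚ] k, g θ = - θ →
      Q.map (algebraMap ℚ _) ∣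
        (P.map (algebraMap ℚ _) - C (algebraMap ℚ _ lam) ^ 2) * σ *
          σ.map (g : k →+* k) -
        C (algebraMap ℚ _ lam) * (σ + σ.map (g : k →+* k)) - 1)
    (g : k ≃ₐ[ℚ] k) (r : Fin 3 → k[X])
    (hr : r ∈ secSub (P.map (algebraMap ℚ k)) (C (algebraMap ℚ k lam)) (Q.map (algebraMap ℚ k)) σ θ
      (Q.map (algebraMap ℚ k)).natDegree) :
    (fun i => (r i).map (g : k →+* k)) ∈ secSub (P.map (algebraMap ℚ k))
      (C (algebraMap ℚ k lam)) (Q.map (algebraMap ℚ k)) σ θ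
      (Q.map (algebraMap ℚ k)).natDegree := by
  have hinj : Function.Injective (g : k →+* k) := g.injective
  obtain ⟨h, h0, h1, h2⟩ := hr
  refine ⟨?_, ?_, ?_, ?_⟩
  · have hcomp : (g : k →+* k).comp (algebraMap ℚ k) = algebraMap ℚ k := RingHom.ext fun x => by simp
    have hmap := InT.map (mapRingHom (g : k →+* k)) h
    have e1 : mapRingHom (g : k →+* k) (P.map (algebraMap ℚ k)) = P.map (algebraMap ℚ k) := by
      rw [coe_mapRingHom, Polynomial.map_map, hcomp]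
    have e2 : mapRingHom (g : k →+* k) (Q.map (algebraMap ℚ k)) = Q.map (algebraMap ℚ k) := by
      rw [coe_mapRingHom, Polynomial.map_map, hcomp]
    have e3 : mapRingHom (g : k →+* k) (C (algebraMap ℚ k lam)) = C (algebraMap ℚ k lam) := by
      rw [coe_mapRingHom, Polynomial.map_C]
      simp
    have e4 : (fun i => mapRingHom (g : k →+* k) (rfR (C θ) r i)) =
        rfR (C (g θ)) (fun i => (r i).map (g : k →+* k)) := by
      ext j : 1
      fin_cases j <;> simp [rfR]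
    rw [e1, e2, e3, e4, coe_mapRingHom] at hmap
    have hg : g θ = θ ∨ g θ = - θ := by
      have : (g θ) ^ 2 = θ ^ 2 := by
        rw [← map_pow, hθ]; simp [map_ofNat]
      exact sq_eq_sq_iff_eq_or_eq_neg.1 this
    have hPQ' : IsCoprime (P.map (algebraMap ℚ k)) (Q.map (algebraMap ℚ k)) :=
      hPQ.map (mapRingHom (algebraMap ℚ k))
    rcases hg with hg | hg
    · rw [hg] at hmap
      exact hmap.congr_center (hfix g hg)
    · rw [hg, C_neg] at hmap
      exact hmap.flip hPQ' (hflip g hg)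
  · rw [degree_map]; exact h0
  · rw [degree_map]; exact h1
  · rw [degree_map]; exact h2

end final

lemma isGalois_rat_closure : IsGalois ℚ (AlgebraicClosure ℚ) := by
  have key : ∀ i : Algebra ℚ (AlgebraicClosure ℚ),
      @IsGalois ℚ _ (AlgebraicClosure ℚ) _ i := by
    intro i
    have h : i = AlgebraicClosure.instAlgebra ℚ := Subsingleton.elim _ _
    subst h
    exact @IsAlgClosure.isGalois ℚ (AlgebraicClosure ℚ) _ _ (AlgebraicClosure.instAlgebra ℚ)
      (@IsAlgClosure.mk ℚ (AlgebraicClosure ℚ) _ _ (AlgebraicClosure.instAlgebra ℚ) _ inferInstance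
        (AlgebraicClosure.isAlgebraic ℚ)) _
  exact key _

/-- JOB M6. -/
theorem exists_sections (θ : AlgebraicClosure ℚ) (hθ : θ ^ 2 = -3)
    (P Q : ℚ[X]) (lam : ℚ) (σ : (AlgebraicClosure ℚ)[X]) (hQ : Q ≠ 0) (hPQ : IsCoprime P Q)
    (hfix : ∀ g : AlgebraicClosure ℚ ≃ₐ[ℚ] AlgebraicClosure ℚ, g θ = θ →
      Q.map (algebraMap ℚ _) ∣ σ.map (g : AlgebraicClosure ℚ →+* AlgebraicClosure ℚ) - σ)
    (hflip : ∀ g : AlgebraicClosure ℚ ≃ₐ[ℚ] AlgebraicClosure ℚ, g θ = - θ →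
      Q.map (algebraMap ℚ _) ∣
        (P.map (algebraMap ℚ _) - C (algebraMap ℚ _ lam) ^ 2) * σ *
          σ.map (g : AlgebraicClosure ℚ →+* AlgebraicClosure ℚ) -
        C (algebraMap ℚ _ lam) *
          (σ + σ.map (g : AlgebraicClosure ℚ →+* AlgebraicClosure ℚ)) - 1) :
    ∃ s t : Fin 3 → ℚ[X], LinearIndependent ℚ ![s, t] ∧
      (∀ r ∈ ({s, t} : Set (Fin 3 → ℚ[X])),
        InT (P.map (algebraMap ℚ _)) (C (algebraMap ℚ _ lam)) (Q.map (algebraMap ℚ _)) σ (rf θ r) ∧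
        (r 0).degree < ((Q.natDegree + 2 : ℕ) : WithBot ℕ) ∧
        (r 1).degree < (Q.natDegree : WithBot ℕ) ∧ (r 2).degree < (Q.natDegree : WithBot ℕ)) := by
  have := isGalois_rat_closure
  have hQ' : Q.map (algebraMap ℚ (AlgebraicClosure ℚ)) ≠ 0 := by
    rwa [Ne, Polynomial.map_eq_zero]
  have hnd : (Q.map (algebraMap ℚ (AlgebraicClosure ℚ))).natDegree = Q.natDegree :=
    natDegree_map _
  have hst := secSub_stable θ hθ P Q lam σ hPQ hfix hflip
  have hcvt : ∀ s : Fin 3 → ℚ[X], (fun i => (s i).map (algebraMap ℚ (AlgebraicClosure ℚ))) ∈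
      secSub (P.map (algebraMap ℚ _)) (C (algebraMap ℚ _ lam)) (Q.map (algebraMap ℚ _)) σ θ
        (Q.map (algebraMap ℚ (AlgebraicClosure ℚ))).natDegree →
      InT (P.map (algebraMap ℚ _)) (C (algebraMap ℚ _ lam)) (Q.map (algebraMap ℚ _)) σ (rf θ s) ∧
        (s 0).degree < ((Q.natDegree + 2 : ℕ) : WithBot ℕ) ∧
        (s 1).degree < (Q.natDegree : WithBot ℕ) ∧ (s 2).degree < (Q.natDegree : WithBot ℕ) := by
    rintro s ⟨h, h0, h1, h2⟩
    rw [hnd, degree_map] at h0 h1 h2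
    exact ⟨h, h0, h1, h2⟩
  obtain ⟨r1, ⟨hr1, -⟩, hr10⟩ := secSub_nonzero (P.map (algebraMap ℚ _)) (C (algebraMap ℚ _ lam)) σ
    (Q.map (algebraMap ℚ (AlgebraicClosure ℚ))) θ hQ' 0
  obtain ⟨s, hs0, hsS⟩ := descent _ hst ⟨r1, hr1, hr10⟩
  obtain ⟨i0, hi0⟩ : ∃ i, s i ≠ 0 := by
    by_contra hcon
    push Not at hcon
    exact hs0 (funext hcon)
  obtain ⟨n0, hn0⟩ : ∃ n, (s i0).coeff n ≠ 0 := by
    by_contra hcon
    push Not at hcon
    exact hi0 (Polynomial.ext (by simpa using hcon))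
  let ℓ : (Fin 3 → (AlgebraicClosure ℚ)[X]) →ₗ[AlgebraicClosure ℚ] AlgebraicClosure ℚ :=
    (lcoeff (AlgebraicClosure ℚ) n0).comp (LinearMap.proj i0)
  obtain ⟨t, ht0, htS⟩ := descent (secSub (P.map (algebraMap ℚ _)) (C (algebraMap ℚ _ lam))
    (Q.map (algebraMap ℚ _)) σ θ (Q.map (algebraMap ℚ (AlgebraicClosure ℚ))).natDegree ⊓
      LinearMap.ker ℓ) (fun g r hr => ⟨hst g r hr.1, by
        have h1 : (r i0).coeff n0 = 0 := hr.2
        change ((r i0).map (g : AlgebraicClosure ℚ →+* AlgebraicClosure ℚ)).coeff n0 = 0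
        rw [coeff_map, h1, map_zero]⟩)
    (secSub_nonzero (P.map (algebraMap ℚ _)) (C (algebraMap ℚ _ lam)) σ
      (Q.map (algebraMap ℚ (AlgebraicClosure ℚ))) θ hQ' ℓ)
  have htc : (t i0).coeff n0 = 0 := by
    have h1 : ((t i0).map (algebraMap ℚ (AlgebraicClosure ℚ))).coeff n0 = 0 := htS.2
    rw [coeff_map] at h1
    exact (map_eq_zero _).1 h1
  refine ⟨s, t, ?_, ?_⟩
  · rw [LinearIndependent.pair_iff]
    intro a b hab
    have h1 : (a • s i0 + b • t i0).coeff n0 = 0 := by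
      have := congrArg (fun f : Fin 3 → ℚ[X] => (f i0).coeff n0) hab
      simpa using this
    rw [coeff_add, coeff_smul, coeff_smul, htc, smul_zero, add_zero, smul_eq_mul] at h1
    have ha : a = 0 := (mul_eq_zero.1 h1).resolve_right hn0
    refine ⟨ha, ?_⟩
    rw [ha, zero_smul, zero_add] at hab
    exact (smul_eq_zero.1 hab).resolve_right ht0
  · intro r hr
    rcases hr with rfl | hr
    · exact hcvt _ hsS
    · rw [Set.mem_singleton_iff] at hr
      rw [hr]
      exact hcvt _ htS.1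

end Pool.Agent.H48.SymDP
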