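import Pool.Agent.H48.SymDP.Irr.Model

open Polynomial

namespace Pool.Agent.H48.SymDP

section Lattice

variable {R : Type*} [CommRing R] {P lam Q σ τ : R} {s : Fin 3 → R}

lemma F1_add (P lam : R) (s : Fin 3 → R) (W T : R) :
    F1 P lam s (W + T) = F1 P lam s W + 2 * F2 P lam s * T := by
  simp only [F1, F2]; ring

/-- The lattice only depends on `σ` modulo `Q`. -/
lemma InT.congr_center (h : InT P lam Q τ s) (hd : Q ∣ τ - σ) : InT P lam Q σ s := by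
  obtain ⟨c, hc⟩ := hd
  obtain ⟨⟨a, ha⟩, ⟨b, hb⟩⟩ := h
  have hσ : σ = τ + (-(Q * c)) := by rw [← hc]; ring
  rw [hσ]
  refine ⟨?_, ?_⟩
  · rw [F0_add, ha, hb]
    exact ⟨a - b * c + F2 P lam s * c ^ 2, by ring⟩
  · rw [F1_add, hb]
    exact ⟨b - 2 * F2 P lam s * c, by ring⟩

/-- The form with real coordinates `r`. -/
def rfR (θ : R) (r : Fin 3 → R) : Fin 3 → R := ![r 0, r 1 + θ * r 2, r 1 - θ * r 2]

/-- The conjugate lattice. -/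
lemma InT.flip {θ : R} {r : Fin 3 → R} (hPQ : IsCoprime P Q)
    (h : InT P lam Q τ (rfR (-θ) r))
    (hd : Q ∣ (P - lam ^ 2) * σ * τ - lam * (σ + τ) - 1) : InT P lam Q σ (rfR θ r) := by
  obtain ⟨c, hc⟩ := hd
  obtain ⟨⟨a, ha⟩, ⟨b, hb⟩⟩ := h
  have h0 : P * F0 P lam (rfR θ r) σ =
      F0 P lam (rfR (-θ) r) τ * ((P - lam ^ 2) * σ - lam) ^ 2 -
      F1 P lam (rfR (-θ) r) τ * ((P - lam ^ 2) * σ - lam) *
        ((P - lam ^ 2) * σ * τ - lam * (σ + τ) - 1) +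
      F2 P lam (rfR (-θ) r) * ((P - lam ^ 2) * σ * τ - lam * (σ + τ) - 1) ^ 2 := by
    simp [F0, F1, F2, rfR]; ring
  have h1 : P * F1 P lam (rfR θ r) σ =
      2 * F0 P lam (rfR (-θ) r) τ * ((P - lam ^ 2) * σ - lam) * (P - lam ^ 2) -
      F1 P lam (rfR (-θ) r) τ * ((P - lam ^ 2) *
        ((P - lam ^ 2) * σ * τ - lam * (σ + τ) - 1) +
        ((P - lam ^ 2) * σ - lam) * ((P - lam ^ 2) * τ - lam)) +
      2 * F2 P lam (rfR (-θ) r) * ((P - lam ^ 2) * σ * τ - lam * (σ + τ) - 1) *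
        ((P - lam ^ 2) * τ - lam) := by
    simp [F0, F1, F2, rfR]; ring
  refine ⟨?_, ?_⟩
  · refine (hPQ.symm.pow_left).dvd_of_dvd_mul_left ?_
    rw [h0, ha, hb, hc]
    exact ⟨a * ((P - lam ^ 2) * σ - lam) ^ 2 - b * c * ((P - lam ^ 2) * σ - lam) +
      F2 P lam (rfR (-θ) r) * c ^ 2, by ring⟩
  · refine hPQ.symm.dvd_of_dvd_mul_left ?_
    rw [h1, ha, hb, hc]
    exact ⟨2 * (Q * a) * ((P - lam ^ 2) * σ - lam) * (P - lam ^ 2) -
      b * ((P - lam ^ 2) * (Q * c) + ((P - lam ^ 2) * σ - lam) * ((P - lam ^ 2) * τ - lam)) +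
      2 * F2 P lam (rfR (-θ) r) * c * ((P - lam ^ 2) * τ - lam), by ring⟩

lemma InT.map {S : Type*} [CommRing S] (f : R →+* S) {P lam Q σ : R} {s : Fin 3 → R}
    (h : InT P lam Q σ s) : InT (f P) (f lam) (f Q) (f σ) (fun i => f (s i)) := by
  obtain ⟨⟨a, ha⟩, ⟨b, hb⟩⟩ := h
  refine ⟨⟨f a, ?_⟩, ⟨f b, ?_⟩⟩
  · rw [← map_pow, ← map_mul, ← ha]; simp [F0]
  · rw [← map_mul, ← hb]; simp [F1, map_ofNat]

end Lattice

end Pool.Agent.H48.SymDP
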